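import Mathlib
import Pool.Agent.Helper685.FE.Final

set_option autoImplicit false

namespace Pool.Agent.Results.MP_12983e_an.Classification

open Pool.Agent.Helper685.FE

/-- The continuous solutions of `f (x + f x) = f x + f (f x)` are exactly the linear maps
and the maps that are linear with nonnegative slope on each of the two half lines. -/
theorem result (f : ℝ → ℝ) :
    (Continuous f ∧ ∀ x : ℝ, f (x + f x) = f x + f (f x)) ↔
      (∃ a : ℝ, ∀ x : ℝ, f x = a * x) ∨
        ∃ a b : ℝ, 0 ≤ a ∧ 0 ≤ b ∧
          (∀ x : ℝ, 0 ≤ x → f x = a * x) ∧ (∀ x : ℝ, x ≤ 0 → f x = b * x) := by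
  constructor
  · rintro ⟨hc, he⟩
    exact (Sol.classify ⟨hc, he⟩ : Concl f)
  · rintro (⟨a, ha⟩ | ⟨a, b, ha, hb, h1, h2⟩)
    · constructor
      · have : f = fun x => a * x := funext ha
        rw [this]; fun_prop
      · intro x
        simp only [ha]; ring
    · constructor
      · have : f = fun x => a * max x 0 + b * min x 0 := by
          funext x
          rcases le_total 0 x with h | h
          · rw [h1 x h, max_eq_left h, min_eq_right h]; ring
          · rw [h2 x h, max_eq_right h, min_eq_left h]; ring
        rw [this]; fun_prop
      · intro x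
        rcases le_total 0 x with h | h
        · have hfx : 0 ≤ f x := by rw [h1 x h]; exact mul_nonneg ha h
          rw [h1 (x + f x) (by linarith), h1 (f x) hfx, h1 x h]; ring
        · have hfx : f x ≤ 0 := by
            rw [h2 x h]; exact mul_nonpos_of_nonneg_of_nonpos hb h
          rw [h2 (x + f x) (by linarith), h2 (f x) hfx, h2 x h]; ring

end Pool.Agent.Results.MP_12983e_an.Classification
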